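import Mathlib

/-!
# The Diestel-Leader graph `DL(q, r)` in lamp coordinates

A vertex is a pair `(n, w)` where `n` is an integer and `w` assigns a digit to every integer
position, with finitely many nonzero digits; digits at positions `≥ n` are `< q`, digits at
positions `< n` are `< r`. Two vertices are adjacent if their first coordinates are `n` and `n + 1`
and their digits agree off the position `n`.
-/

set_option autoImplicit false

namespace Pool.Agent.Work.MP_2d87f2_co

/-- A vertex of the Diestel-Leader graph. -/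
@[ext] structure Vtx (q r : ℕ) where
  /-- the level -/
  n : ℤ
  /-- the digits -/
  w : ℤ → ℕ
  fin : (Function.support w).Finite
  bd : ∀ p, w p < if n ≤ p then q else r

/-- The Diestel-Leader graph `DL(q, r)`. -/
def DL (q r : ℕ) : SimpleGraph (Vtx q r) where
  Adj u v := (v.n = u.n + 1 ∧ ∀ p, p ≠ u.n → u.w p = v.w p) ∨
    (u.n = v.n + 1 ∧ ∀ p, p ≠ v.n → u.w p = v.w p)
  symm := ⟨by
    rintro u v (⟨h1, h2⟩ | ⟨h1, h2⟩)
    · exact Or.inr ⟨h1, fun p hp => (h2 p hp).symm⟩
    · exact Or.inl ⟨h1, fun p hp => (h2 p hp).symm⟩⟩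
  loopless := ⟨by
    rintro u (⟨h1, _⟩ | ⟨h1, _⟩) <;> omega⟩

variable {q r : ℕ}

theorem DL_adj (u v : Vtx q r) : (DL q r).Adj u v ↔
    (v.n = u.n + 1 ∧ ∀ p, p ≠ u.n → u.w p = v.w p) ∨
    (u.n = v.n + 1 ∧ ∀ p, p ≠ v.n → u.w p = v.w p) := Iff.rfl

/-- The interval swept by a walk. -/
theorem walk_interval {u v : Vtx q r} (p : (DL q r).Walk u v) :
    ∃ a b : ℤ, a ≤ u.n ∧ a ≤ v.n ∧ u.n ≤ b ∧ v.n ≤ b ∧
      (∀ x, (x < a ∨ b ≤ x) → u.w x = v.w x) ∧ 2 * (b - a) ≤ p.length + |v.n - u.n| := by
  induction p with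
  | nil => exact ⟨_, _, le_refl _, le_refl _, le_refl _, le_refl _, fun _ _ => rfl, by simp⟩
  | @cons u u' v h p ih =>
    obtain ⟨a, b, h1, h2, h3, h4, h5, h6⟩ := ih
    rw [SimpleGraph.Walk.length_cons]
    push_cast
    rcases h with ⟨e1, e2⟩ | ⟨e1, e2⟩
    · -- up step from `u` to `u'`
      by_cases ha : a ≤ u.n
      · refine ⟨a, b, ha, h2, by omega, h4, fun x hx => ?_, ?_⟩
        · rw [e2 x (by omega), h5 x hx]
        · have : |v.n - u'.n| ≤ |v.n - u.n| + 1 := by
            rw [e1]
            have := abs_sub_abs_le_abs_sub (v.n - (u.n + 1)) (v.n - u.n)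
            have h7 : |v.n - (u.n + 1) - (v.n - u.n)| = 1 := by
              rw [show v.n - (u.n + 1) - (v.n - u.n) = -1 by ring]; rfl
            omega
          omega
      · have haa : a = u.n + 1 := by omega
        refine ⟨u.n, b, le_refl _, by omega, by omega, h4, fun x hx => ?_, ?_⟩
        · rw [e2 x (by omega), h5 x (by omega)]
        · rw [abs_of_nonneg (by omega)] at h6 ⊢
          omega
    · by_cases hb : u.n ≤ b
      · refine ⟨a, b, by omega, h2, hb, h4, fun x hx => ?_, ?_⟩
        · rw [e2 x (by omega), h5 x hx]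
        · have : |v.n - u'.n| ≤ |v.n - u.n| + 1 := by
            rw [e1]
            have := abs_sub_abs_le_abs_sub (v.n - u'.n) (v.n - (u'.n + 1))
            have h7 : |v.n - u'.n - (v.n - (u'.n + 1))| = 1 := by
              rw [show v.n - u'.n - (v.n - (u'.n + 1)) = 1 by ring]; rfl
            omega
          omega
      · refine ⟨a, u.n, by omega, h2, le_refl _, by omega, fun x hx => ?_, ?_⟩
        · rw [e2 x (by omega), h5 x (by omega)]
        · rw [abs_of_nonpos (by omega)] at h6 ⊢
          omega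

/-- A straight walk upwards. -/
theorem exists_up_walk (j : ℕ) : ∀ (u v : Vtx q r), v.n = u.n + j →
    (∀ x, (x < u.n ∨ v.n ≤ x) → u.w x = v.w x) → ∃ p : (DL q r).Walk u v, p.length = j := by
  induction j with
  | zero =>
    intro u v h1 h2
    have : u = v := by
      ext x
      · simpa using h1.symm
      · exact h2 x (by omega)
    subst this
    exact ⟨SimpleGraph.Walk.nil, rfl⟩
  | succ j ih =>
    intro u v h1 h2
    push_cast at h1
    let u' : Vtx q r :=
      { n := u.n + 1
        w := fun x => if x = u.n then v.w x else u.w x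
        fin := by
          refine (u.fin.union v.fin).subset ?_
          intro x hx
          simp only [Function.mem_support, ne_eq] at hx
          simp only [Set.mem_union, Function.mem_support, ne_eq]
          by_cases h : x = u.n
          · right; rw [if_pos h] at hx; exact hx
          · left; rw [if_neg h] at hx; exact hx
        bd := by
          intro x
          by_cases h : x = u.n
          · rw [if_pos h, if_neg (by omega)]
            have := v.bd x
            rwa [if_neg (by omega)] at this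
          · rw [if_neg h]
            have := u.bd x
            by_cases h3 : u.n ≤ x
            · rw [if_pos h3] at this
              rwa [if_pos (by omega)]
            · rw [if_neg h3] at this
              rwa [if_neg (by omega)] }
    obtain ⟨p, hp⟩ := ih u' v (by show v.n = u.n + 1 + j; omega) (by
      intro x hx
      show (if x = u.n then v.w x else u.w x) = v.w x
      have hx' : x < u.n + 1 ∨ v.n ≤ x := hx
      split_ifs with h
      · rfl
      · exact h2 x (by omega))
    have hadj : (DL q r).Adj u u' := Or.inl ⟨rfl, fun x hx => by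
      show u.w x = if x = u.n then v.w x else u.w x
      rw [if_neg hx]⟩
    exact ⟨SimpleGraph.Walk.cons hadj p, by rw [SimpleGraph.Walk.length_cons, hp]⟩

/-- Changing the digits in a window. -/
def mk' (m : ℤ) (a b : ℤ) (u : Vtx q r) (f : ℤ → ℕ)
    (h : ∀ x, (if a ≤ x ∧ x < b then f x else u.w x) < if m ≤ x then q else r) : Vtx q r where
  n := m
  w := fun x => if a ≤ x ∧ x < b then f x else u.w x
  fin := by
    refine (u.fin.union (Set.finite_Ico a b)).subset ?_
    intro x hx
    simp only [Function.mem_support, ne_eq] at hx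
    simp only [Set.mem_union, Function.mem_support, ne_eq, Set.mem_Ico]
    by_cases h : a ≤ x ∧ x < b
    · right; exact h
    · left; rw [if_neg h] at hx; exact hx
  bd := h

/-- The vertex `(a, 0)`. -/
def base (hq : 0 < q) (hr : 0 < r) (a : ℤ) : Vtx q r where
  n := a
  w := fun _ => 0
  fin := by simp
  bd := by intro x; split_ifs <;> assumption

theorem reachable_base (hq : 0 < q) (hr : 0 < r) (u : Vtx q r) :
    (DL q r).Reachable u (base hq hr 0) := by
  obtain ⟨c, hc⟩ : ∃ c : ℤ, ∀ x, u.w x ≠ 0 → x < c := by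
    obtain ⟨c, hc⟩ := u.fin.bddAbove
    exact ⟨c + 1, fun x hx => by have := hc hx; omega⟩
  obtain ⟨d, hd⟩ : ∃ d : ℤ, ∀ x, u.w x ≠ 0 → d ≤ x := by
    obtain ⟨d, hd⟩ := u.fin.bddBelow
    exact ⟨d, fun x hx => hd hx⟩
  set b : ℤ := max c (max u.n 0) with hb
  set a : ℤ := min d (min u.n 0) with ha
  have hb1 : c ≤ b := le_max_left _ _
  have hb2 : u.n ≤ b := (le_max_left _ _).trans (le_max_right _ _)
  have hb3 : 0 ≤ b := (le_max_right _ _).trans (le_max_right _ _)
  have ha1 : a ≤ d := min_le_left _ _
  have ha2 : a ≤ u.n := (min_le_right _ _).trans (min_le_left _ _)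
  have ha3 : a ≤ 0 := (min_le_right _ _).trans (min_le_right _ _)
  let t : Vtx q r := mk' b u.n b u (fun _ => 0) (by
    intro x
    have hx := u.bd x
    by_cases h1 : u.n ≤ x ∧ x < b
    · rw [if_pos h1]
      split_ifs <;> assumption
    · rw [if_neg h1]
      by_cases h2 : u.n ≤ x
      · rw [if_pos h2] at hx
        rwa [if_pos (by omega)]
      · rw [if_neg h2] at hx
        rwa [if_neg (by omega)])
  have htw : ∀ x, t.w x = if u.n ≤ x ∧ x < b then 0 else u.w x := fun _ => rfl
  have htn : t.n = b := rfl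
  -- from `u` up to `t`
  obtain ⟨j1, hj1⟩ := Int.eq_ofNat_of_zero_le (show 0 ≤ b - u.n by omega)
  obtain ⟨p1, -⟩ := exists_up_walk j1 u t (by rw [htn]; omega) (by
    intro x hx
    rw [htn] at hx
    rw [htw, if_neg (by omega)])
  -- from `(a, 0)` up to `t`
  obtain ⟨j2, hj2⟩ := Int.eq_ofNat_of_zero_le (show 0 ≤ b - a by omega)
  obtain ⟨p2, -⟩ := exists_up_walk j2 (base hq hr a) t
    (by show b = a + j2; omega) (by
    intro x hx
    rw [htn] at hx
    have hx' : x < a ∨ b ≤ x := hx
    show 0 = t.w x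
    rw [htw]
    split_ifs with h
    · rfl
    · by_contra hne
      have h1 := hc x (Ne.symm hne)
      have h2 := hd x (Ne.symm hne)
      omega)
  -- from `(a, 0)` up to `(0, 0)`
  obtain ⟨j3, hj3⟩ := Int.eq_ofNat_of_zero_le (show 0 ≤ 0 - a by omega)
  obtain ⟨p3, -⟩ := exists_up_walk j3 (base hq hr a) (base hq hr 0)
    (by show (0 : ℤ) = a + j3; omega) (fun _ _ => rfl)
  exact ⟨(p1.append p2.reverse).append p3⟩

theorem connected (hq : 0 < q) (hr : 0 < r) : (DL q r).Connected := by
  have : Nonempty (Vtx q r) := ⟨base hq hr 0⟩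
  exact ⟨fun u v => (reachable_base hq hr u).trans (reachable_base hq hr v).symm⟩

/-- The interval lemma for distances. -/
theorem dist_interval (hq : 0 < q) (hr : 0 < r) (u v : Vtx q r) :
    ∃ a b : ℤ, a ≤ u.n ∧ a ≤ v.n ∧ u.n ≤ b ∧ v.n ≤ b ∧
      (∀ x, (x < a ∨ b ≤ x) → u.w x = v.w x) ∧
      2 * (b - a) ≤ (DL q r).dist u v + |v.n - u.n| := by
  obtain ⟨p, hp⟩ := (connected hq hr).exists_walk_length_eq_dist u v
  rw [← hp]
  exact walk_interval p

theorem dist_up (u v : Vtx q r) (j : ℕ) (h1 : v.n = u.n + j)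
    (h2 : ∀ x, (x < u.n ∨ v.n ≤ x) → u.w x = v.w x) : (DL q r).dist u v ≤ j := by
  obtain ⟨p, hp⟩ := exists_up_walk j u v h1 h2
  rw [← hp]
  exact SimpleGraph.dist_le p

/-- Two vertices of the same level whose digits agree off a window of length `j` above the level
are at distance at most `2 j`. -/
theorem dist_level (u v : Vtx q r) (j : ℕ) (hn : u.n = v.n)
    (h : ∀ x, (x < u.n ∨ u.n + j ≤ x) → u.w x = v.w x) (hr : 0 < r) :
    (DL q r).dist u v ≤ 2 * j := by
  let t : Vtx q r := mk' (u.n + j) u.n (u.n + j) u (fun _ => 0) (by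
    intro x
    have hx := u.bd x
    by_cases h1 : u.n ≤ x ∧ x < u.n + j
    · rw [if_pos h1, if_neg (by omega)]
      exact hr
    · rw [if_neg h1]
      by_cases h2 : u.n ≤ x
      · rw [if_pos h2] at hx
        rwa [if_pos (by omega)]
      · rw [if_neg h2] at hx
        rwa [if_neg (by omega)])
  have htw : ∀ x, t.w x = if u.n ≤ x ∧ x < u.n + j then 0 else u.w x := fun _ => rfl
  obtain ⟨p1, hp1⟩ := exists_up_walk j u t rfl (by
    intro x hx
    have hx' : x < u.n ∨ u.n + j ≤ x := hx
    rw [htw, if_neg (by omega)])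
  obtain ⟨p2, hp2⟩ := exists_up_walk j v t (by show u.n + j = v.n + j; omega) (by
    intro x hx
    have hx' : x < v.n ∨ u.n + j ≤ x := hx
    rw [htw, if_neg (by omega)]
    exact (h x (by omega)).symm)
  have := SimpleGraph.dist_le (p1.append p2.reverse)
  rw [SimpleGraph.Walk.length_append, SimpleGraph.Walk.length_reverse, hp1, hp2] at this
  omega

end Pool.Agent.Work.MP_2d87f2_co
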