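import Pool.Agent.Work.MP_2d87f2_co.Net

/-!
# Counting the edges that leave the box
-/

set_option autoImplicit false

namespace Pool.Agent.Work.MP_2d87f2_co

variable {q : ℕ}

theorem ncard_le_of_inj {α β : Type*} (s : Set α) (t : Finset β) (f : α → β)
    (h1 : ∀ a ∈ s, f a ∈ t) (h2 : Set.InjOn f s) : s.Finite ∧ s.ncard ≤ t.card := by
  have hfin : s.Finite := Set.Finite.of_injOn (fun a ha => h1 a ha) h2 t.finite_toSet
  refine ⟨hfin, ?_⟩
  rw [← Set.ncard_coe_finset]
  exact Set.ncard_le_ncard_of_injOn f (fun a ha => h1 a ha) h2 t.finite_toSet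

theorem w_lt (u : Vtx q (q + 1)) (x : ℤ) : u.w x < q + 1 := by
  have := u.bd x
  split_ifs at this <;> omega

theorem w_lt' (u : Vtx q (q + 1)) (x : ℤ) (hx : u.n ≤ x) : u.w x < q := by
  have := u.bd x
  rwa [if_pos hx] at this

/-- The box. -/
def Box (q : ℕ) (H : ℕ) : Set (Vtx q (q + 1)) :=
  {u | 0 ≤ u.n ∧ u.n ≤ H ∧ ∀ x, (x < 0 ∨ (H : ℤ) ≤ x) → u.w x = 0}

theorem box_finite (q H : ℕ) : (Box q H).Finite := by
  refine (ncard_le_of_inj (Box q H)
    ((Finset.range (H + 1)) ×ˢ (Fintype.piFinset fun _ : Fin H => Finset.range (q + 1)))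
    (fun u => (u.n.toNat, fun i : Fin H => u.w (i : ℕ))) ?_ ?_).1
  · rintro u ⟨h1, h2, h3⟩
    rw [Finset.mem_product, Fintype.mem_piFinset]
    refine ⟨?_, fun i => ?_⟩
    · rw [Finset.mem_range]
      show u.n.toNat < H + 1
      omega
    · rw [Finset.mem_range]
      exact w_lt u _
  · rintro u ⟨h1, h2, h3⟩ v ⟨h4, h5, h6⟩ h
    simp only [Prod.mk.injEq] at h
    obtain ⟨h7, h8⟩ := h
    ext x
    · omega
    · by_cases hx : x < 0 ∨ (H : ℤ) ≤ x
      · rw [h3 x hx, h6 x hx]
      · push Not at hx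
        have := congrFun h8 ⟨x.toNat, by omega⟩
        simp only at this
        rwa [Int.toNat_of_nonneg hx.1] at this

/-- The pairs leaving through the top. -/
def ETop (q H L : ℕ) (S : Set (Vtx q (q + 1))) : Set (Vtx q (q + 1) × Vtx q (q + 1)) :=
  {p | p.1 ∈ S ∧ p.1 ∈ Box q H ∧ p.2 ∈ S ∧ (L : ℤ) ≤ p.1.n ∧ p.1.n ≤ L + 1 ∧
    (L : ℤ) + 1 ≤ p.2.n ∧ p.2.n ≤ L + 3 ∧ (∀ x, x < p.1.n → p.1.w x = p.2.w x) ∧
    ∀ x, (H : ℤ) + 2 ≤ x → p.1.w x = p.2.w x}

/-- The pairs leaving through the bottom. -/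
def EBot (q K H : ℕ) : Set (Vtx q (q + 1) × Vtx q (q + 1)) :=
  {p | p.1 ∈ Box q H ∧ p.1.n < 4 * K ∧ -(4 * K : ℤ) ≤ p.2.n ∧ p.2.n < 4 * K ∧
    ∀ x, (x < -(4 * K : ℤ) ∨ (4 * K : ℤ) ≤ x) → p.1.w x = p.2.w x}

theorem etop_card {K H L : ℕ} (hK : 1 ≤ K) (hH : H = L + 2 * K)
    {S : Set (Vtx q (q + 1))} (hS : IsNet (DL q (q + 1)) (2 * K) S)
    (hNF : ∀ s ∈ S, (L : ℤ) ≤ s.n → NF q K s.n s.w) :
    (ETop q H L S).Finite ∧
      (ETop q H L S).ncard ≤ 6 * (q + 1) ^ (L + 7) * 9 ^ K := by
  have key := ncard_le_of_inj (ETop q H L S)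
    ((Finset.range 2) ×ˢ (Finset.range 3) ×ˢ
      (Fintype.piFinset fun _ : Fin L => Finset.range (q + 1)) ×ˢ
      (Fintype.piFinset fun _ : Fin K => Finset.range 3) ×ˢ
      (Fintype.piFinset fun _ : Fin K => Finset.range 3) ×ˢ
      (Fintype.piFinset fun _ : Fin 7 => Finset.range (q + 1)))
    (fun p => ((p.1.n - L).toNat, (p.2.n - (L + 1)).toNat, (fun i : Fin L => p.1.w (i : ℕ)),
      (fun i : Fin K => p.1.w (p.1.n + K - 1 + (i : ℕ))),
      (fun i : Fin K => p.2.w (p.2.n + K - 1 + (i : ℕ))),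
      ![p.1.w L, p.1.w (H - 1), p.2.w L, p.2.w (L + 1), p.2.w (L + 2), p.2.w H, p.2.w (H + 1)]))
    ?_ ?_
  · refine ⟨key.1, key.2.trans (le_of_eq ?_)⟩
    simp only [Finset.card_product, Fintype.card_piFinset_const, Finset.card_range]
    rw [show (9 : ℕ) = 3 * 3 by norm_num, mul_pow, pow_add]
    ring
  · rintro ⟨s, t⟩ ⟨h1, h2, h3, h4, h5, h6, h7, h8, h9⟩
    simp only at h1 h2 h3 h4 h5 h6 h7 h8 h9
    simp only [Finset.mem_product, Fintype.mem_piFinset, Finset.mem_range]
    refine ⟨by omega, by omega, fun i => w_lt s _, fun i => ?_, fun i => ?_, fun i => ?_⟩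
    · have := i.2
      exact (hNF s h1 h4).lt_three (by omega) (by omega)
    · have := i.2
      exact (hNF t h3 (by omega)).lt_three (by omega) (by omega)
    · fin_cases i
      · exact w_lt s _
      · exact w_lt s _
      · exact w_lt t _
      · exact w_lt t _
      · exact w_lt t _
      · exact w_lt t _
      · exact w_lt t _
  · rintro ⟨s, t⟩ ⟨h1, h2, h3, h4, h5, h6, h7, h8, h9⟩ ⟨s', t'⟩
      ⟨h1', h2', h3', h4', h5', h6', h7', h8', h9'⟩ h
    simp only at h1 h2 h3 h4 h5 h6 h7 h8 h9 h1' h2' h3' h4' h5' h6' h7' h8' h9'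
    simp only [Prod.mk.injEq] at h
    obtain ⟨e1, e2, e3, e4, e5, e6⟩ := h
    have hn : s.n = s'.n := by omega
    have hn' : t.n = t'.n := by omega
    have f0 : s.w L = s'.w L := congrFun e6 0
    have f1 : s.w (H - 1) = s'.w (H - 1) := congrFun e6 1
    have f2 : t.w L = t'.w L := congrFun e6 2
    have f3 : t.w (L + 1) = t'.w (L + 1) := congrFun e6 3
    have f4 : t.w (L + 2) = t'.w (L + 2) := congrFun e6 4
    have f5 : t.w H = t'.w H := congrFun e6 5
    have f6 : t.w (H + 1) = t'.w (H + 1) := congrFun e6 6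
    have hs : s = s' := by
      have hd := dist_level s s' (K - 1) hn (by
        intro x hx
        by_cases hx0 : x < 0 ∨ (H : ℤ) ≤ x
        · rw [h2.2.2 x hx0, h2'.2.2 x hx0]
        push Not at hx0
        by_cases hx1 : x < L
        · have := congrFun e3 ⟨x.toNat, by omega⟩
          simp only at this
          rwa [Int.toNat_of_nonneg hx0.1] at this
        by_cases hx2 : x = L
        · rw [hx2]; exact f0
        by_cases hx3 : x = H - 1
        · rw [hx3]; exact f1
        have hx4 : s.n + K - 1 ≤ x := by omega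
        have := congrFun e4 ⟨(x - (s.n + K - 1)).toNat, by omega⟩
        simp only at this
        rw [← hn] at this
        rw [Int.toNat_of_nonneg (by omega)] at this
        rw [show s.n + K - 1 + (x - (s.n + K - 1)) = x by ring] at this
        exact this) (Nat.succ_pos q)
      exact hS.sep h1 h1' (by omega)
    have ht : t = t' := by
      have hd := dist_level t t' (K - 1) hn' (by
        intro x hx
        by_cases hx0 : x < s.n
        · rw [← h8 x hx0, ← h8' x (by omega), hs]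
        by_cases hx1 : (H : ℤ) + 2 ≤ x
        · rw [← h9 x hx1, ← h9' x hx1, hs]
        by_cases hx2 : x = L
        · rw [hx2]; exact f2
        by_cases hx3 : x = L + 1
        · rw [hx3]; exact f3
        by_cases hx4 : x = L + 2
        · rw [hx4]; exact f4
        by_cases hx5 : x = H
        · rw [hx5]; exact f5
        by_cases hx6 : x = H + 1
        · rw [hx6]; exact f6
        have hx7 : t.n + K - 1 ≤ x := by omega
        have := congrFun e5 ⟨(x - (t.n + K - 1)).toNat, by omega⟩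
        simp only at this
        rw [← hn'] at this
        rw [Int.toNat_of_nonneg (by omega)] at this
        rw [show t.n + K - 1 + (x - (t.n + K - 1)) = x by ring] at this
        exact this) (Nat.succ_pos q)
      exact hS.sep h3 h3' (by omega)
    rw [hs, ht]

theorem ebot_card {K H M : ℕ} (hH : H = M + 4 * K) :
    (EBot q K H).Finite ∧
      (EBot q K H).ncard ≤ 32 * K ^ 2 * (q + 1) ^ (12 * K) * q ^ M := by
  have key := ncard_le_of_inj (EBot q K H)
    ((Finset.range (4 * K)) ×ˢ (Finset.range (8 * K)) ×ˢ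
      (Fintype.piFinset fun _ : Fin (4 * K) => Finset.range (q + 1)) ×ˢ
      (Fintype.piFinset fun _ : Fin M => Finset.range q) ×ˢ
      (Fintype.piFinset fun _ : Fin (8 * K) => Finset.range (q + 1)))
    (fun p => (p.1.n.toNat, (p.2.n + 4 * K).toNat, (fun i : Fin (4 * K) => p.1.w (i : ℕ)),
      (fun i : Fin M => p.1.w (4 * K + (i : ℕ))),
      (fun i : Fin (8 * K) => p.2.w ((i : ℕ) - 4 * K))))
    ?_ ?_
  · refine ⟨key.1, key.2.trans (le_of_eq ?_)⟩
    simp only [Finset.card_product, Fintype.card_piFinset_const, Finset.card_range]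
    ring
  · rintro ⟨s, t⟩ ⟨h1, h2, h3, h4, h5⟩
    obtain ⟨h6, h7, h8⟩ := h1
    simp only at h2 h3 h4 h5 h6 h7 h8
    simp only [Finset.mem_product, Fintype.mem_piFinset, Finset.mem_range]
    refine ⟨by omega, by omega, fun i => w_lt s _, fun i => w_lt' s _ (by omega),
      fun i => w_lt t _⟩
  · rintro ⟨s, t⟩ ⟨h1, h2, h3, h4, h5⟩ ⟨s', t'⟩ ⟨h1', h2', h3', h4', h5'⟩ h
    obtain ⟨h6, h7, h8⟩ := h1
    obtain ⟨h6', h7', h8'⟩ := h1'
    simp only at h2 h3 h4 h5 h6 h7 h8 h2' h3' h4' h5' h6' h7' h8'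
    simp only [Prod.mk.injEq] at h
    obtain ⟨e1, e2, e3, e4, e5⟩ := h
    have hs : s = s' := by
      ext x
      · omega
      · by_cases hx0 : x < 0 ∨ (H : ℤ) ≤ x
        · rw [h8 x hx0, h8' x hx0]
        push Not at hx0
        by_cases hx1 : x < 4 * K
        · have := congrFun e3 ⟨x.toNat, by omega⟩
          simp only at this
          rwa [Int.toNat_of_nonneg hx0.1] at this
        · have := congrFun e4 ⟨(x - 4 * K).toNat, by omega⟩
          simp only at this
          rw [Int.toNat_of_nonneg (by omega)] at this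
          rw [show 4 * (K : ℤ) + (x - 4 * K) = x by ring] at this
          exact this
    have ht : t = t' := by
      ext x
      · omega
      · by_cases hx0 : x < -(4 * K : ℤ) ∨ (4 * K : ℤ) ≤ x
        · rw [← h5 x hx0, ← h5' x hx0, hs]
        push Not at hx0
        have := congrFun e5 ⟨(x + 4 * K).toNat, by omega⟩
        simp only at this
        rw [Int.toNat_of_nonneg (by omega)] at this
        rw [show x + 4 * (K : ℤ) - 4 * K = x by ring] at this
        exact this
    rw [hs, ht]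

/-- Pairs of net points at distance at most `4 K` which leave the box. -/
theorem leaving {K H L : ℕ} (hq : 0 < q) (hH : H = L + 2 * K)
    {S : Set (Vtx q (q + 1))}
    (hNF : ∀ s ∈ S, (L : ℤ) ≤ s.n → NF q K s.n s.w) {s t : Vtx q (q + 1)}
    (hs : s ∈ S) (hsB : s ∈ Box q H) (ht : t ∈ S) (htB : t ∉ Box q H)
    (hd : (DL q (q + 1)).dist s t ≤ 2 * (2 * K)) :
    (s, t) ∈ ETop q H L S ∪ EBot q K H := by
  obtain ⟨a, b, h1, h2, h3, h4, h5, h6⟩ := dist_int hq s t
  have hd' : ((DL q (q + 1)).dist s t : ℤ) ≤ 2 * (2 * K) := by exact_mod_cast hd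
  obtain ⟨c1, c2, c3⟩ := hsB
  by_cases hb : (H : ℤ) + 1 ≤ b
  · left
    have hs1 : s.n ≤ L + 1 := by
      by_contra hcon
      have h7 := (hNF s hs (by omega)).1
      rw [c3 _ (by omega)] at h7
      omega
    have ht1 : t.n + 2 * K - 1 ≤ b := by
      by_contra hcon
      have h7 := (hNF t ht (by omega)).1
      rw [← h5 _ (by omega), c3 _ (by omega)] at h7
      omega
    have hle : s.n ≤ t.n := by
      by_contra hcon
      rw [abs_of_neg (by omega)] at h6
      omega
    rw [abs_of_nonneg (by omega)] at h6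
    have ha : a = s.n := by omega
    exact ⟨hs, ⟨c1, c2, c3⟩, ht, by show (L : ℤ) ≤ s.n; omega, hs1,
      by show (L : ℤ) + 1 ≤ t.n; omega, by show t.n ≤ L + 3; omega,
      fun x hx => h5 x (by rw [ha]; exact Or.inl hx),
      fun x hx => h5 x (Or.inr (by omega))⟩
  · right
    have ha : a ≤ -1 := by
      by_contra hcon
      apply htB
      refine ⟨by omega, by omega, fun x hx => ?_⟩
      rw [← h5 x (by omega)]
      exact c3 x hx
    have hab : b - a ≤ 4 * K := by
      have : |t.n - s.n| ≤ b - a := by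
        rw [abs_le]; constructor <;> omega
      omega
    exact ⟨⟨c1, c2, c3⟩, by show s.n < 4 * K; omega, by show -(4 * K : ℤ) ≤ t.n; omega,
      by show t.n < 4 * K; omega, fun x hx => h5 x (by omega)⟩

/-! ### The dense spot -/

/-- A word extended by zero. -/
def ext0 {m b : ℕ} (g : Fin m → Fin b) (x : ℤ) : ℕ :=
  if h : 0 ≤ x ∧ x < m then g ⟨x.toNat, by omega⟩ else 0

theorem ext0_lt {m b : ℕ} (hb : 0 < b) (g : Fin m → Fin b) (x : ℤ) : ext0 g x < b := by
  unfold ext0
  split_ifs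
  · exact (g _).2
  · exact hb

theorem ext0_zero {m b : ℕ} (g : Fin m → Fin b) (x : ℤ) (hx : x < 0 ∨ (m : ℤ) ≤ x) :
    ext0 g x = 0 := by
  unfold ext0
  rw [dif_neg (by omega)]

theorem ext0_val {m b : ℕ} (g : Fin m → Fin b) (i : Fin m) : ext0 g (i : ℕ) = g i := by
  unfold ext0
  have := i.2
  rw [dif_pos ⟨by omega, by omega⟩]
  congr 1

/-- The points of the dense spot. -/
def spot (hq : 0 < q) {K m : ℕ} (hK : 1 ≤ K)
    (g : (Fin m → Fin (q + 1)) × (Fin (6 * K - 1) → Fin q)) : Vtx q (q + 1) where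
  n := m + K
  w := fun x => if x < m then ext0 g.1 x else
    if x < m + K then ext0 g.2 (x - m) else ext0 g.2 (x - (m + K))
  fin := by
    refine (Set.finite_Ico (0 : ℤ) (7 * K - 1 + m)).subset ?_
    intro x hx
    rw [Function.mem_support] at hx
    rw [Set.mem_Ico]
    by_contra hcon
    apply hx
    by_cases h1 : x < m
    · rw [if_pos h1]
      exact ext0_zero _ _ (by omega)
    · rw [if_neg h1, if_neg (by omega)]
      exact ext0_zero _ _ (by omega)
  bd := by
    intro x
    have e1 := ext0_lt (Nat.succ_pos q) g.1 x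
    have e2 := ext0_lt hq g.2 (x - m)
    have e3 := ext0_lt hq g.2 (x - (m + K))
    by_cases h1 : x < m
    · rw [if_pos h1, if_neg (by omega)]
      exact e1
    · rw [if_neg h1]
      by_cases h2 : x < m + K
      · rw [if_pos h2, if_neg (by omega)]
        omega
      · rw [if_neg h2, if_pos (by omega)]
        exact e3

theorem spot_w (hq : 0 < q) {K m : ℕ} (hK : 1 ≤ K)
    (g : (Fin m → Fin (q + 1)) × (Fin (6 * K - 1) → Fin q)) (x : ℤ) :
    (spot hq hK g).w x = if x < m then ext0 g.1 x else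
    if x < m + K then ext0 g.2 (x - m) else ext0 g.2 (x - (m + K)) := rfl

theorem spot_mem (hq : 0 < q) {K m : ℕ} (hK : 1 ≤ K)
    (g : (Fin m → Fin (q + 1)) × (Fin (6 * K - 1) → Fin q)) : spot hq hK g ∈ QSet q K m := by
  refine ⟨rfl, fun x hx => ?_, fun x hx1 hx2 => ?_⟩
  · rw [spot_w]
    by_cases h1 : x < m
    · rw [if_pos h1]
      exact ext0_zero _ _ (by omega)
    · rw [if_neg h1, if_neg (by omega)]
      exact ext0_zero _ _ (by omega)
  · rw [spot_w, spot_w, if_neg (by omega), if_pos hx2, if_neg (by omega), if_neg (by omega)]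
    congr 1
    ring

theorem spot_injective (hq : 0 < q) {K m : ℕ} (hK : 1 ≤ K) :
    Function.Injective (spot (q := q) (m := m) hq hK) := by
  rintro ⟨g1, g2⟩ ⟨g1', g2'⟩ h
  have hw : ∀ x, (spot hq hK (g1, g2)).w x = (spot hq hK (g1', g2')).w x := fun x => by rw [h]
  rw [Prod.mk.injEq]
  constructor
  · funext i
    have hi := i.2
    have := hw (i : ℕ)
    rw [spot_w, spot_w, if_pos (by omega), if_pos (by omega), ext0_val, ext0_val] at this
    exact Fin.ext this
  · funext i
    have hi := i.2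
    have := hw ((i : ℕ) + (m + K))
    rw [spot_w, spot_w, if_neg (by omega), if_neg (by omega), if_neg (by omega),
      if_neg (by omega)] at this
    rw [show ((i : ℕ) : ℤ) + (m + K) - (m + K) = ((i : ℕ) : ℤ) by ring, ext0_val, ext0_val] at this
    exact Fin.ext this

theorem qset_card (hq : 0 < q) {K m : ℕ} (hK : 1 ≤ K) {T : Set (Vtx q (q + 1))}
    (hT : T.Finite) (h : QSet q K m ⊆ T) : (q + 1) ^ m * q ^ (6 * K - 1) ≤ T.ncard := by
  have h1 : (Set.range (spot (q := q) (m := m) hq hK)).ncard = (q + 1) ^ m * q ^ (6 * K - 1) := by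
    rw [← Set.image_univ, Set.ncard_image_of_injective _ (spot_injective hq hK), Set.ncard_univ,
      Nat.card_eq_fintype_card]
    simp
  rw [← h1]
  refine Set.ncard_le_ncard ?_ hT
  rintro _ ⟨g, rfl⟩
  exact h (spot_mem hq hK g)

end Pool.Agent.Work.MP_2d87f2_co
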