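import Mathlib

/-!
# Cheeger constants and net graphs
-/

set_option autoImplicit false

namespace Pool.Agent.Work.MP_2d87f2_co

/-- The Cheeger constant of a graph: the infimum of `|∂A| / |A|` over the finite nonempty vertex
sets `A`, where `∂A` is the set of edges with exactly one endpoint in `A` (each such edge is counted
once, as the ordered pair whose first entry is the endpoint in `A`). -/
noncomputable def cheeger {V : Type} (G : SimpleGraph V) : ℝ :=
  sInf {x : ℝ | ∃ A : Finset V, A.Nonempty ∧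
    x = ({p : V × V | p.1 ∈ A ∧ p.2 ∉ A ∧ G.Adj p.1 p.2}.ncard : ℝ) / A.card}

/-- `S` is a `k`-net of `G`: it is maximal under inclusion among the sets of vertices whose
distinct elements are at distance at least `k`. -/
def IsNet {V : Type} (G : SimpleGraph V) (k : ℕ) (S : Set V) : Prop :=
  Maximal (fun S : Set V => ∀ u ∈ S, ∀ v ∈ S, u ≠ v → k ≤ G.dist u v) S

/-- The `k`-net graph on the `k`-net `S`: distinct vertices are adjacent if they are at distance
at most `2 k` in `G`. -/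
def netGraph {V : Type} (G : SimpleGraph V) (k : ℕ) (S : Set V) : SimpleGraph S where
  Adj u v := u ≠ v ∧ G.dist (u : V) (v : V) ≤ 2 * k
  symm := ⟨fun u v h => ⟨h.1.symm, by rw [SimpleGraph.dist_comm]; exact h.2⟩⟩
  loopless := ⟨fun u h => h.1 rfl⟩

theorem cheeger_set_nonneg {V : Type} (G : SimpleGraph V) (x : ℝ)
    (hx : x ∈ {x : ℝ | ∃ A : Finset V, A.Nonempty ∧
      x = ({p : V × V | p.1 ∈ A ∧ p.2 ∉ A ∧ G.Adj p.1 p.2}.ncard : ℝ) / A.card}) : 0 ≤ x := by
  obtain ⟨A, _, rfl⟩ := hx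
  positivity

theorem cheeger_nonneg {V : Type} (G : SimpleGraph V) : 0 ≤ cheeger G :=
  Real.sInf_nonneg (cheeger_set_nonneg G)

theorem cheeger_le {V : Type} (G : SimpleGraph V) (A : Finset V) (hA : A.Nonempty) :
    cheeger G ≤ ({p : V × V | p.1 ∈ A ∧ p.2 ∉ A ∧ G.Adj p.1 p.2}.ncard : ℝ) / A.card :=
  csInf_le ⟨0, fun x hx => cheeger_set_nonneg G x hx⟩ ⟨A, hA, rfl⟩

/-- Every separated set is contained in a net. -/
theorem exists_net {V : Type} (G : SimpleGraph V) (k : ℕ) (S₀ : Set V)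
    (h : ∀ u ∈ S₀, ∀ v ∈ S₀, u ≠ v → k ≤ G.dist u v) : ∃ S, S₀ ⊆ S ∧ IsNet G k S := by
  have := zorn_subset_nonempty {S : Set V | ∀ u ∈ S, ∀ v ∈ S, u ≠ v → k ≤ G.dist u v} (by
    intro c hc hchain _
    refine ⟨⋃₀ c, ?_, fun s hs => Set.subset_sUnion_of_mem hs⟩
    rintro u ⟨s, hs, hu⟩ v ⟨t, ht, hv⟩ huv
    rcases hchain.total hs ht with hst | hst
    · exact hc ht u (hst hu) v hv huv
    · exact hc hs u hu v (hst hv) huv) S₀ h
  obtain ⟨S, hS1, hS2⟩ := this
  exact ⟨S, hS1, hS2⟩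

theorem IsNet.sep {V : Type} {G : SimpleGraph V} {k : ℕ} {S : Set V} (h : IsNet G k S) {u v : V}
    (hu : u ∈ S) (hv : v ∈ S) (hd : G.dist u v < k) : u = v := by
  by_contra hne
  have := h.1 u hu v hv hne
  omega

end Pool.Agent.Work.MP_2d87f2_co
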