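import Pool.Agent.Work.MP_2d87f2_co.Final

/-!
# Local finiteness of net graphs, and the vertex boundary version
-/

set_option autoImplicit false

namespace Pool.Agent.Work.MP_2d87f2_co

/-- The vertex version of the Cheeger constant: the infimum of `|∂A| / |A|` over the finite
nonempty vertex sets `A`, where `∂A` is the set of vertices outside `A` adjacent to a vertex
of `A`. -/
noncomputable def vertexCheeger {V : Type} (G : SimpleGraph V) : ℝ :=
  sInf {x : ℝ | ∃ A : Finset V, A.Nonempty ∧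
    x = ({v : V | v ∉ A ∧ ∃ u ∈ A, G.Adj u v}.ncard : ℝ) / A.card}

theorem vertexCheeger_le {V : Type} (G : SimpleGraph V) (A : Finset V) (hA : A.Nonempty) :
    vertexCheeger G ≤ ({v : V | v ∉ A ∧ ∃ u ∈ A, G.Adj u v}.ncard : ℝ) / A.card :=
  csInf_le ⟨0, fun x hx => by obtain ⟨B, _, rfl⟩ := hx; positivity⟩ ⟨A, hA, rfl⟩

theorem boundary_finite {V : Type} (G : SimpleGraph V) (h : ∀ v, (G.neighborSet v).Finite)
    (A : Finset V) : {p : V × V | p.1 ∈ A ∧ p.2 ∉ A ∧ G.Adj p.1 p.2}.Finite := by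
  refine (Set.Finite.biUnion (A.finite_toSet)
    (fun u _ => ((Set.finite_singleton u).prod (h u)))).subset ?_
  rintro ⟨u, v⟩ ⟨h1, h2, h3⟩
  simp only [Set.mem_iUnion]
  exact ⟨u, h1, rfl, h3⟩

theorem image_boundary {V : Type} (G : SimpleGraph V) (A : Finset V) :
    Prod.snd '' {p : V × V | p.1 ∈ A ∧ p.2 ∉ A ∧ G.Adj p.1 p.2} =
      {v : V | v ∉ A ∧ ∃ u ∈ A, G.Adj u v} := by
  ext v
  constructor
  · rintro ⟨⟨u, w⟩, ⟨h1, h2, h3⟩, rfl⟩
    exact ⟨h2, u, h1, h3⟩
  · rintro ⟨h1, u, h2, h3⟩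
    exact ⟨(u, v), ⟨h2, h1, h3⟩, rfl⟩

theorem vertexCheeger_le_cheeger {V : Type} [Nonempty V] (G : SimpleGraph V)
    (h : ∀ v, (G.neighborSet v).Finite) : vertexCheeger G ≤ cheeger G := by
  refine le_csInf ?_ ?_
  · obtain ⟨v⟩ := (inferInstance : Nonempty V)
    exact ⟨_, {v}, Finset.singleton_nonempty v, rfl⟩
  · rintro x ⟨A, hA, rfl⟩
    refine (vertexCheeger_le G A hA).trans ?_
    refine div_le_div_of_nonneg_right ?_ (by positivity)
    rw [← image_boundary]
    exact_mod_cast Set.ncard_image_le (boundary_finite G h A)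

theorem cheeger_le_mul_vertexCheeger {V : Type} [Nonempty V] (G : SimpleGraph V) (D : ℕ)
    (h : ∀ v, (G.neighborSet v).Finite) (h' : ∀ v, (G.neighborSet v).ncard ≤ D) :
    cheeger G ≤ D * vertexCheeger G := by
  classical
  have key : ∀ A : Finset V, {p : V × V | p.1 ∈ A ∧ p.2 ∉ A ∧ G.Adj p.1 p.2}.ncard ≤
      D * {v : V | v ∉ A ∧ ∃ u ∈ A, G.Adj u v}.ncard := by
    intro A
    have hfin : {v : V | v ∉ A ∧ ∃ u ∈ A, G.Adj u v}.Finite := by
      rw [← image_boundary]
      exact (boundary_finite G h A).image _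
    set W : Finset V := hfin.toFinset with hW
    have h1 : {p : V × V | p.1 ∈ A ∧ p.2 ∉ A ∧ G.Adj p.1 p.2} ⊆
        ((W.biUnion fun v => (h v).toFinset.image fun u => (u, v)) : Finset (V × V)) := by
      rintro ⟨u, v⟩ ⟨h2, h3, h4⟩
      rw [Finset.mem_coe, Finset.mem_biUnion]
      refine ⟨v, ?_, ?_⟩
      · rw [hW, Set.Finite.mem_toFinset]
        exact ⟨h3, u, h2, h4⟩
      · rw [Finset.mem_image]
        refine ⟨u, ?_, rfl⟩
        rw [Set.Finite.mem_toFinset]
        exact h4.symm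
    have h2 : {v : V | v ∉ A ∧ ∃ u ∈ A, G.Adj u v}.ncard = W.card := by
      rw [hW, Set.ncard_eq_toFinset_card _ hfin]
    calc {p : V × V | p.1 ∈ A ∧ p.2 ∉ A ∧ G.Adj p.1 p.2}.ncard
        ≤ (W.biUnion fun v => (h v).toFinset.image fun u => (u, v)).card := by
          rw [← Set.ncard_coe_finset]
          exact Set.ncard_le_ncard h1 (Finset.finite_toSet _)
      _ ≤ W.card * D := by
          refine Finset.card_biUnion_le_card_mul _ _ _ (fun v _ => ?_)
          refine Finset.card_image_le.trans ?_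
          rw [← Set.ncard_eq_toFinset_card _ (h v)]
          exact h' v
      _ = D * {v : V | v ∉ A ∧ ∃ u ∈ A, G.Adj u v}.ncard := by rw [h2, mul_comm]
  rcases Nat.eq_zero_or_pos D with hD | hD
  · subst hD
    obtain ⟨v⟩ := (inferInstance : Nonempty V)
    have h1 := cheeger_le G {v} (Finset.singleton_nonempty v)
    have h2 := key {v}
    rw [zero_mul, Nat.le_zero] at h2
    rw [h2] at h1
    simpa using h1
  · have hD' : (0 : ℝ) < D := by exact_mod_cast hD
    rw [← div_le_iff₀' hD']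
    refine le_csInf ?_ ?_
    · obtain ⟨v⟩ := (inferInstance : Nonempty V)
      exact ⟨_, {v}, Finset.singleton_nonempty v, rfl⟩
    · rintro x ⟨A, hA, rfl⟩
      rw [div_le_iff₀' hD', ← mul_div_assoc]
      refine (cheeger_le G A hA).trans ?_
      refine div_le_div_of_nonneg_right ?_ (by positivity)
      exact_mod_cast key A

theorem ball_finite {V : Type} (G : SimpleGraph V) (h : ∀ v, (G.neighborSet v).Finite) (n : ℕ) :
    ∀ u : V, {v : V | ∃ p : G.Walk u v, p.length = n}.Finite := by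
  induction n with
  | zero =>
    intro u
    refine (Set.finite_singleton u).subset ?_
    rintro v ⟨p, hp⟩
    exact (SimpleGraph.Walk.eq_of_length_eq_zero hp).symm
  | succ n ih =>
    intro u
    refine (Set.Finite.biUnion (h u) (fun w _ => ih w)).subset ?_
    rintro v ⟨p, hp⟩
    cases p with
    | nil => simp at hp
    | @cons _ w _ hadj p =>
      simp only [Set.mem_iUnion]
      refine ⟨w, hadj, p, ?_⟩
      rw [SimpleGraph.Walk.length_cons] at hp
      omega

theorem netGraph_locallyFinite {V : Type} (G : SimpleGraph V) (hG : G.Connected)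
    (h : ∀ v, (G.neighborSet v).Finite) (k : ℕ) (S : Set V) (s : S) :
    ((netGraph G k S).neighborSet s).Finite := by
  have h1 : {v : V | G.dist s v ≤ 2 * k}.Finite := by
    refine (Set.Finite.biUnion (Set.finite_Iic (2 * k)) (fun n _ => ball_finite G h n s)).subset ?_
    intro v hv
    simp only [Set.mem_iUnion]
    obtain ⟨p, hp⟩ := hG.exists_walk_length_eq_dist s v
    exact ⟨G.dist s v, hv, p, hp⟩
  have h2 : (Subtype.val ⁻¹' {v : V | G.dist s v ≤ 2 * k} : Set S).Finite :=
    h1.preimage Subtype.val_injective.injOn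
  exact h2.subset (fun t ht => ht.2)

end Pool.Agent.Work.MP_2d87f2_co
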