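import Pool.Agent.Work.MP_2d87f2_co.Count

/-!
# The nets with small Cheeger constant
-/

set_option autoImplicit false

namespace Pool.Agent.Work.MP_2d87f2_co

variable {q : ℕ}

theorem exists_net_le (hq : 3 ≤ q) {K : ℕ} (hK : 1 ≤ K) (m : ℕ) :
    ∃ S : Set (Vtx q (q + 1)), IsNet (DL q (q + 1)) (2 * K) S ∧
      cheeger (netGraph (DL q (q + 1)) (2 * K) S) ≤
        6 * (q + 1) ^ 6 * q * ((q + 1) ^ 5 * 9 / q ^ 6) ^ K +
          32 * K ^ 2 * (q + 1) ^ (12 * K) * (q / (q + 1)) ^ m := by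
  obtain ⟨S, hS, hQ, hNF⟩ := exists_good_net hq hK m
  refine ⟨S, hS, ?_⟩
  obtain ⟨L, hL⟩ : ∃ L : ℕ, L + 1 = 5 * K + m := ⟨5 * K + m - 1, by omega⟩
  set H : ℕ := L + 2 * K with hH
  obtain ⟨M, hM⟩ : ∃ M : ℕ, H = M + 4 * K := ⟨H - 4 * K, by omega⟩
  have hNF' : ∀ s ∈ S, (L : ℤ) ≤ s.n → NF q K s.n s.w := fun s hs h => hNF s hs (by omega)
  have hq0 : 0 < q := by omega
  -- the set `A`
  have hAfin : {s : S | (s : Vtx q (q + 1)) ∈ Box q H}.Finite :=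
    Set.Finite.preimage Subtype.val_injective.injOn (box_finite q H)
  set A : Finset S := hAfin.toFinset with hA
  have hmemA : ∀ s : S, s ∈ A ↔ (s : Vtx q (q + 1)) ∈ Box q H := fun s => by
    rw [hA, Set.Finite.mem_toFinset]; rfl
  have hAcard : (q + 1) ^ m * q ^ (6 * K - 1) ≤ A.card := by
    have h1 : ((fun s : S => (s : Vtx q (q + 1))) '' (A : Set S)).ncard = A.card := by
      rw [Set.ncard_image_of_injective _ Subtype.val_injective, Set.ncard_coe_finset]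
    rw [← h1]
    refine qset_card hq0 hK ((A.finite_toSet).image _) ?_
    intro u hu
    refine ⟨⟨u, hQ hu⟩, ?_, rfl⟩
    rw [Finset.mem_coe, hmemA]
    obtain ⟨h2, h3, -⟩ := hu
    exact ⟨by show 0 ≤ u.n; omega, by show u.n ≤ H; omega, fun x hx => h3 x (by omega)⟩
  have hApos : 0 < A.card := lt_of_lt_of_le (by positivity) hAcard
  refine (cheeger_le _ A (Finset.card_pos.1 hApos)).trans ?_
  -- the boundary
  have hcross : {p : S × S | p.1 ∈ A ∧ p.2 ∉ A ∧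
      (netGraph (DL q (q + 1)) (2 * K) S).Adj p.1 p.2}.ncard ≤
      6 * (q + 1) ^ (L + 7) * 9 ^ K + 32 * K ^ 2 * (q + 1) ^ (12 * K) * q ^ M := by
    obtain ⟨t1, t2⟩ := etop_card hK hH hS hNF'
    obtain ⟨b1, b2⟩ := ebot_card (q := q) hM
    have h1 : {p : S × S | p.1 ∈ A ∧ p.2 ∉ A ∧
        (netGraph (DL q (q + 1)) (2 * K) S).Adj p.1 p.2}.ncard ≤
        (ETop q H L S ∪ EBot q K H).ncard := by
      refine Set.ncard_le_ncard_of_injOn
        (fun p => ((p.1 : Vtx q (q + 1)), (p.2 : Vtx q (q + 1)))) ?_ ?_ (t1.union b1)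
      · rintro ⟨s, t⟩ ⟨h1, h2, h3⟩
        simp only at h1 h2 h3
        rw [hmemA] at h1 h2
        exact leaving hq0 hH hNF' s.2 h1 t.2 h2 h3.2
      · rintro ⟨s, t⟩ _ ⟨s', t'⟩ _ h
        simp only [Prod.mk.injEq] at h
        rw [Subtype.ext h.1, Subtype.ext h.2]
    have h2 := Set.ncard_union_le (ETop q H L S) (EBot q K H)
    omega
  have hqR : (0 : ℝ) < q := by exact_mod_cast hq0
  have hq1 : (0 : ℝ) < (q : ℝ) + 1 := by positivity
  have hden : (0 : ℝ) < ((q : ℝ) + 1) ^ m * (q : ℝ) ^ (6 * K - 1) := by positivity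
  have hcross' : ({p : S × S | p.1 ∈ A ∧ p.2 ∉ A ∧
      (netGraph (DL q (q + 1)) (2 * K) S).Adj p.1 p.2}.ncard : ℝ) ≤
      6 * ((q : ℝ) + 1) ^ (L + 7) * 9 ^ K +
        32 * (K : ℝ) ^ 2 * ((q : ℝ) + 1) ^ (12 * K) * (q : ℝ) ^ M := by
    exact_mod_cast hcross
  have hAcard' : ((q : ℝ) + 1) ^ m * (q : ℝ) ^ (6 * K - 1) ≤ A.card := by
    exact_mod_cast hAcard
  refine (div_le_div₀ (by positivity) hcross' hden hAcard').trans ?_
  rw [div_le_iff₀ hden, add_mul]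
  refine add_le_add (le_of_eq ?_) ?_
  · have e1 : L + 7 = 5 * K + m + 6 := by omega
    have e2 : (q : ℝ) * (q : ℝ) ^ (6 * K - 1) = (q : ℝ) ^ (6 * K) := by
      rw [← pow_succ']
      congr 1
      omega
    rw [e1, div_pow, mul_pow, ← pow_mul, ← pow_mul]
    have hne : (q : ℝ) ^ (6 * K) ≠ 0 := by positivity
    field_simp
    rw [← e2, pow_add, pow_add]
    ring
  · rw [div_pow]
    have hne : ((q : ℝ) + 1) ^ m ≠ 0 := by positivity
    have e3 : 32 * (K : ℝ) ^ 2 * ((q : ℝ) + 1) ^ (12 * K) * ((q : ℝ) ^ m / ((q : ℝ) + 1) ^ m) *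
        (((q : ℝ) + 1) ^ m * (q : ℝ) ^ (6 * K - 1)) =
        32 * (K : ℝ) ^ 2 * ((q : ℝ) + 1) ^ (12 * K) * ((q : ℝ) ^ m * (q : ℝ) ^ (6 * K - 1)) := by
      field_simp
    rw [e3, ← pow_add]
    refine mul_le_mul_of_nonneg_left ?_ (by positivity)
    exact pow_le_pow_right₀ (by exact_mod_cast hq0) (by omega)

theorem exists_net_lt (ε : ℝ) (hε : 0 < ε) : ∃ K₀ : ℕ, 1 ≤ K₀ ∧ ∀ K : ℕ, K₀ ≤ K →
    ∃ S : Set (Vtx 16 17), IsNet (DL 16 17) (2 * K) S ∧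
      cheeger (netGraph (DL 16 17) (2 * K) S) < ε := by
  have h1 : Filter.Tendsto (fun K : ℕ => 6 * ((16 : ℕ) + 1 : ℝ) ^ 6 * (16 : ℕ) *
      (((16 : ℕ) + 1 : ℝ) ^ 5 * 9 / ((16 : ℕ) : ℝ) ^ 6) ^ K) Filter.atTop
      (nhds (6 * ((16 : ℕ) + 1 : ℝ) ^ 6 * (16 : ℕ) * 0)) := by
    refine Filter.Tendsto.const_mul _ ?_
    refine tendsto_pow_atTop_nhds_zero_of_lt_one (by positivity) ?_
    norm_num
  rw [mul_zero] at h1
  obtain ⟨K₀, hK₀⟩ := (h1.eventually (gt_mem_nhds (half_pos hε))).exists_forall_of_atTop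
  refine ⟨K₀ + 1, by omega, fun K hK => ?_⟩
  have h2 : Filter.Tendsto (fun m : ℕ => 32 * (K : ℝ) ^ 2 * ((16 : ℕ) + 1 : ℝ) ^ (12 * K) *
      (((16 : ℕ) : ℝ) / ((16 : ℕ) + 1 : ℝ)) ^ m) Filter.atTop
      (nhds (32 * (K : ℝ) ^ 2 * ((16 : ℕ) + 1 : ℝ) ^ (12 * K) * 0)) := by
    refine Filter.Tendsto.const_mul _ ?_
    refine tendsto_pow_atTop_nhds_zero_of_lt_one (by positivity) ?_
    norm_num
  rw [mul_zero] at h2
  obtain ⟨m, hm⟩ := (h2.eventually (gt_mem_nhds (half_pos hε))).exists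
  obtain ⟨S, hS1, hS2⟩ := exists_net_le (q := 16) (by norm_num) (K := K) (by omega) m
  refine ⟨S, hS1, lt_of_le_of_lt hS2 ?_⟩
  have h3 := hK₀ K (by omega)
  linarith

end Pool.Agent.Work.MP_2d87f2_co
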