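import Pool.Agent.Work.MP_2d87f2_co.Trans

/-!
# A sparse net of `DL(q, q + 1)` with a dense spot
-/

set_option autoImplicit false

namespace Pool.Agent.Work.MP_2d87f2_co

variable {q : ℕ}

/-- first half of the code of a digit -/
def phi (q e : ℕ) : ℕ := if e = 1 ∨ e = q then 2 else 0

/-- second half of the code of a digit -/
def psi (q e : ℕ) : ℕ := if e = 1 then 0 else if e = q then 2 else e

theorem code_inj (hq : 3 ≤ q) {e f : ℕ} (h1 : phi q e = phi q f)
    (h2 : psi q e = psi q f) : e = f := by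
  unfold phi at h1
  unfold psi at h2
  split_ifs at h1 h2 <;> omega

theorem phi_ne_one (e : ℕ) : phi q e ≠ 1 := by
  unfold phi; split_ifs <;> omega

theorem psi_ne_one (e : ℕ) : psi q e ≠ 1 := by
  unfold psi; split_ifs <;> omega

theorem phi_lt_three (e : ℕ) : phi q e < 3 := by
  unfold phi; split_ifs <;> omega

theorem psi_lt (hq : 3 ≤ q) {e : ℕ} (he : e < q + 1) : psi q e < q := by
  unfold psi; split_ifs <;> omega

/-- The lowest `2 K - 1` digits above the level `n` form the code word of the `K - 1` digits just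
below the level. -/
def Code (q K : ℕ) (n : ℤ) (w : ℤ → ℕ) : Prop :=
  w (n + 2 * K - 2) = 1 ∧ ∀ j : ℤ, 1 ≤ j → j ≤ K - 1 →
    w (n + 2 * K - 2 - j) = phi q (w (n - j)) ∧ w (n + K - 1 - j) = psi q (w (n - j))

/-- The lowest `2 K - 1` digits above the level `n` form a code word. -/
def NF (q K : ℕ) (n : ℤ) (w : ℤ → ℕ) : Prop :=
  w (n + 2 * K - 2) = 1 ∧ ∃ e : ℤ → ℕ, ∀ j : ℤ, 1 ≤ j → j ≤ K - 1 →
    w (n + 2 * K - 2 - j) = phi q (e j) ∧ w (n + K - 1 - j) = psi q (e j)

theorem Code.nf {K : ℕ} {n : ℤ} {w : ℤ → ℕ} (h : Code q K n w) : NF q K n w :=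
  ⟨h.1, fun j => w (n - j), h.2⟩

theorem NF.congr {K : ℕ} (hK : 1 ≤ K) {n : ℤ} {w w' : ℤ → ℕ} (h : NF q K n w)
    (h' : ∀ x, n ≤ x → w x = w' x) : NF q K n w' := by
  obtain ⟨h1, e, h2⟩ := h
  refine ⟨by rw [← h' _ (by omega)]; exact h1, e, fun j hj1 hj2 => ?_⟩
  rw [← h' _ (by omega), ← h' _ (by omega)]
  exact h2 j hj1 hj2

theorem NF.lt_three {K : ℕ} {n : ℤ} {w : ℤ → ℕ} (h : NF q K n w) {x : ℤ}
    (h1 : n + K - 1 ≤ x) (h2 : x ≤ n + 2 * K - 2) : w x < 3 := by
  obtain ⟨h3, e, h4⟩ := h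
  by_cases hx : x = n + 2 * K - 2
  · rw [hx, h3]; omega
  · have := (h4 (n + 2 * K - 2 - x) (by omega) (by omega)).1
    rw [show n + 2 * K - 2 - (n + 2 * K - 2 - x) = x by ring] at this
    rw [this]
    exact phi_lt_three _

theorem dist_int (hq : 0 < q) (u v : Vtx q (q + 1)) :
    ∃ a b : ℤ, a ≤ u.n ∧ a ≤ v.n ∧ u.n ≤ b ∧ v.n ≤ b ∧
      (∀ x, (x < a ∨ b ≤ x) → u.w x = v.w x) ∧
      2 * (b - a) ≤ (DL q (q + 1)).dist u v + |v.n - u.n| :=
  dist_interval hq (Nat.succ_pos q) u v

theorem level_le_dist (hq : 0 < q) (u v : Vtx q (q + 1)) :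
    |v.n - u.n| ≤ (DL q (q + 1)).dist u v := by
  obtain ⟨a, b, h1, h2, h3, h4, -, h6⟩ := dist_int hq u v
  have : |v.n - u.n| ≤ b - a := by
    rw [abs_le]; constructor <;> omega
  omega

/-- The code vertices are separated. -/
theorem code_sep {K : ℕ} (hq : 3 ≤ q) (hK : 1 ≤ K) {u v : Vtx q (q + 1)}
    (hu : Code q K u.n u.w) (hu' : ¬ NF q K (u.n + 2 * K - 1) u.w) (hv : Code q K v.n v.w)
    (hle : u.n ≤ v.n) (hd : (DL q (q + 1)).dist u v < 2 * K) : u = v := by
  obtain ⟨a, b, h1, h2, h3, h4, h5, h6⟩ := dist_int (by omega) u v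
  rw [abs_of_nonneg (by omega)] at h6
  have hd' : ((DL q (q + 1)).dist u v : ℤ) < 2 * K := by exact_mod_cast hd
  rcases hle.lt_or_eq with hlt | heq
  · exfalso
    by_cases hA : v.n ≤ u.n + 2 * K - 2
    · have hvP : v.w (u.n + 2 * K - 2) ≠ 1 := by
        by_cases hj : v.n - u.n ≤ K - 1
        · have := (hv.2 (v.n - u.n) (by omega) hj).1
          rw [show v.n + 2 * K - 2 - (v.n - u.n) = u.n + 2 * K - 2 by ring] at this
          rw [this]
          exact phi_ne_one _
        · have := (hv.2 (v.n - u.n - (K - 1)) (by omega) (by omega)).2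
          rw [show v.n + K - 1 - (v.n - u.n - (K - 1)) = u.n + 2 * K - 2 by ring] at this
          rw [this]
          exact psi_ne_one _
      have hb : u.n + 2 * K - 2 < b := by
        by_contra hcon
        have := h5 (u.n + 2 * K - 2) (by omega)
        rw [hu.1] at this
        exact hvP this.symm
      omega
    · have ha : a = u.n := by omega
      have hb : b = v.n := by omega
      have hvn : v.n = u.n + 2 * K - 1 := by omega
      apply hu'
      rw [← hvn]
      exact hv.nf.congr hK (fun x hx => (h5 x (by omega)).symm)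
  · have hbelow : ∀ x, x < u.n → u.w x = v.w x := by
      intro x hx
      by_cases hxa : x < a
      · exact h5 x (Or.inl hxa)
      have e1 := hu.2 (u.n - x) (by omega) (by omega)
      have e2 := hv.2 (u.n - x) (by omega) (by omega)
      rw [← heq] at e2
      rw [show u.n - (u.n - x) = x by ring] at e1 e2
      have f1 := h5 (u.n + 2 * K - 2 - (u.n - x)) (by omega)
      have f2 := h5 (u.n + K - 1 - (u.n - x)) (by omega)
      rw [e1.1, e2.1] at f1
      rw [e1.2, e2.2] at f2
      exact code_inj hq f1 f2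
    ext x
    · exact heq
    · by_cases hx : x < u.n
      · exact hbelow x hx
      by_cases hxb : b ≤ x
      · exact h5 x (Or.inr hxb)
      have e1 := (hu.2 (u.n + K - 1 - x) (by omega) (by omega)).2
      have e2 := (hv.2 (u.n + K - 1 - x) (by omega) (by omega)).2
      rw [← heq] at e2
      rw [show u.n + K - 1 - (u.n + K - 1 - x) = x by ring] at e1 e2
      rw [e1, e2, hbelow _ (by omega)]

/-- Covering by code vertices. -/
theorem code_cover {K : ℕ} (hq : 3 ≤ q) (hK : 1 ≤ K) (v : Vtx q (q + 1)) (hv : ¬ NF q K v.n v.w) :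
    ∃ u : Vtx q (q + 1), u.n = v.n - (2 * K - 1) ∧ Code q K u.n u.w ∧
      ¬ NF q K (u.n + 2 * K - 1) u.w ∧ (DL q (q + 1)).dist u v < 2 * K := by
  set n : ℤ := v.n - (2 * K - 1) with hn
  let f : ℤ → ℕ := fun x => if x = n + 2 * K - 2 then 1 else
    if n + K - 1 ≤ x then phi q (v.w (n - (n + 2 * K - 2 - x))) else
      psi q (v.w (n - (n + K - 1 - x)))
  let u : Vtx q (q + 1) := mk' n n v.n v f (by
    intro x
    have hx := v.bd x
    by_cases h1 : n ≤ x ∧ x < v.n
    · rw [if_pos h1, if_pos h1.1]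
      show (if x = n + 2 * K - 2 then 1 else
        if n + K - 1 ≤ x then phi q (v.w (n - (n + 2 * K - 2 - x))) else
        psi q (v.w (n - (n + K - 1 - x)))) < q
      split_ifs with h2 h3
      · omega
      · have := phi_lt_three (q := q) (v.w (n - (n + 2 * K - 2 - x)))
        omega
      · apply psi_lt hq
        have := v.bd (n - (n + K - 1 - x))
        rwa [if_neg (by omega)] at this
    · rw [if_neg h1]
      by_cases h2 : v.n ≤ x
      · rw [if_pos h2] at hx
        rwa [if_pos (by omega)]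
      · rw [if_neg h2] at hx
        rwa [if_neg (by omega)])
  have hun : u.n = n := rfl
  have huw : ∀ x, u.w x = if n ≤ x ∧ x < v.n then f x else v.w x := fun _ => rfl
  have hlow : ∀ x, x < n → u.w x = v.w x := fun x hx => by rw [huw, if_neg (by omega)]
  refine ⟨u, rfl, ⟨?_, ?_⟩, ?_, ?_⟩
  · rw [huw, hun, if_pos (by omega)]
    show (if n + 2 * K - 2 = n + 2 * K - 2 then 1 else _) = 1
    rw [if_pos rfl]
  · intro j hj1 hj2
    rw [hun, hlow (n - j) (by omega)]
    constructor
    · rw [huw, if_pos (by omega)]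
      show (if n + 2 * K - 2 - j = n + 2 * K - 2 then 1 else
        if n + K - 1 ≤ n + 2 * K - 2 - j then
          phi q (v.w (n - (n + 2 * K - 2 - (n + 2 * K - 2 - j)))) else
        psi q (v.w (n - (n + K - 1 - (n + 2 * K - 2 - j))))) = _
      rw [if_neg (by omega), if_pos (by omega)]
      congr 2
      ring
    · rw [huw, if_pos (by omega)]
      show (if n + K - 1 - j = n + 2 * K - 2 then 1 else
        if n + K - 1 ≤ n + K - 1 - j then
          phi q (v.w (n - (n + 2 * K - 2 - (n + K - 1 - j)))) else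
        psi q (v.w (n - (n + K - 1 - (n + K - 1 - j))))) = _
      rw [if_neg (by omega), if_neg (by omega)]
      congr 2
      ring
  · intro hcon
    apply hv
    have e : u.n + 2 * K - 1 = v.n := by rw [hun]; omega
    rw [e] at hcon
    exact hcon.congr hK (fun x hx => by rw [huw, if_neg (by omega)])
  · have := dist_up u v (2 * K - 1) (by rw [hun]; omega) (by
      intro x hx
      rw [hun] at hx
      rw [huw, if_neg (by omega)])
    omega

/-- The dense code at the level `m + K`. -/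
def QSet (q K m : ℕ) : Set (Vtx q (q + 1)) :=
  {u | u.n = m + K ∧ (∀ x, (x < 0 ∨ (7 * K - 1 + m : ℤ) ≤ x) → u.w x = 0) ∧
    ∀ x : ℤ, m ≤ x → x < m + K → u.w x = u.w (x + K)}

theorem qset_sep {K m : ℕ} (hq : 0 < q) {u v : Vtx q (q + 1)} (hu : u ∈ QSet q K m)
    (hv : v ∈ QSet q K m) (hd : (DL q (q + 1)).dist u v < 2 * K) : u = v := by
  obtain ⟨a, b, h1, h2, h3, h4, h5, h6⟩ := dist_int hq u v
  have hd' : ((DL q (q + 1)).dist u v : ℤ) < 2 * K := by exact_mod_cast hd
  obtain ⟨u1, -, u3⟩ := hu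
  obtain ⟨v1, -, v3⟩ := hv
  have hn : u.n = v.n := by rw [u1, v1]
  rw [hn, sub_self, abs_zero] at h6
  have habove : ∀ x, u.n ≤ x → u.w x = v.w x := by
    intro x hx
    by_cases hxb : b ≤ x
    · exact h5 x (Or.inr hxb)
    have e1 := u3 (x - K) (by omega) (by omega)
    have e2 := v3 (x - K) (by omega) (by omega)
    rw [show x - (K : ℤ) + K = x by ring] at e1 e2
    rw [← e1, ← e2]
    exact h5 _ (by omega)
  ext x
  · exact hn
  · by_cases hx : u.n ≤ x
    · exact habove x hx
    by_cases hxa : x < a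
    · exact h5 x (Or.inl hxa)
    rw [u3 x (by omega) (by omega), v3 x (by omega) (by omega)]
    exact habove _ (by omega)

/-- The code vertices of the levels `≥ L`. -/
def NSet (q K : ℕ) (L : ℤ) : Set (Vtx q (q + 1)) :=
  {u | L ≤ u.n ∧ Code q K u.n u.w ∧ ¬ NF q K (u.n + 2 * K - 1) u.w}

/-- The net. Here the top of the box is at the level `H = 7 K - 1 + m`. -/
theorem exists_good_net {K : ℕ} (hq : 3 ≤ q) (hK : 1 ≤ K) (m : ℕ) :
    ∃ S : Set (Vtx q (q + 1)), IsNet (DL q (q + 1)) (2 * K) S ∧ QSet q K m ⊆ S ∧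
      ∀ s ∈ S, (5 * K - 1 + m : ℤ) ≤ s.n → NF q K s.n s.w := by
  obtain ⟨S, hS1, hS2⟩ := exists_net (DL q (q + 1)) (2 * K)
    (NSet q K (3 * K + m) ∪ QSet q K m) (by
    rintro u (hu | hu) v (hv | hv) huv
    · by_contra hd
      push Not at hd
      rcases le_total u.n v.n with h | h
      · exact huv (code_sep hq hK hu.2.1 hu.2.2 hv.2.1 h hd)
      · rw [SimpleGraph.dist_comm] at hd
        exact huv (code_sep hq hK hv.2.1 hv.2.2 hu.2.1 h hd).symm
    · have h1 := level_le_dist (by omega) u v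
      have h2 := hu.1
      have h3 := hv.1
      have h4 := neg_abs_le (v.n - u.n)
      omega
    · have h1 := level_le_dist (by omega) u v
      have h2 := hu.1
      have h3 := hv.1
      have h4 := le_abs_self (v.n - u.n)
      omega
    · by_contra hd
      push Not at hd
      exact huv (qset_sep (by omega) hu hv hd))
  refine ⟨S, hS2, fun u hu => hS1 (Or.inr hu), fun s hs hn => ?_⟩
  by_contra hcon
  obtain ⟨u, h1, h2, h3, h4⟩ := code_cover hq hK s hcon
  have hu : u ∈ S := hS1 (Or.inl ⟨by omega, h2, h3⟩)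
  have := hS2.sep hu hs h4
  rw [this] at h2
  exact hcon h2.nf

end Pool.Agent.Work.MP_2d87f2_co
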