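import Pool.Agent.Work.MP_2d87f2_co.Basic
import Pool.Agent.Work.MP_2d87f2_co.Defs

/-!
# The graph `DL(q, r)` is vertex-transitive and regular of degree `q + r`; its Cheeger constant is
at least `r - q`
-/

set_option autoImplicit false

namespace Pool.Agent.Work.MP_2d87f2_co

variable {q r : ℕ}

/-- The shift. -/
def shiftFun (s : ℤ) (u : Vtx q r) : Vtx q r where
  n := u.n + s
  w := fun x => u.w (x - s)
  fin := by
    have : Function.support (fun x => u.w (x - s)) = (fun x => x - s) ⁻¹' Function.support u.w := rfl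
    rw [this]
    exact u.fin.preimage (sub_left_injective.injOn)
  bd := by
    intro x
    have := u.bd (x - s)
    by_cases h : u.n ≤ x - s
    · rw [if_pos h] at this
      rwa [if_pos (by omega)]
    · rw [if_neg h] at this
      rwa [if_neg (by omega)]

theorem shift_adj (s : ℤ) (u v : Vtx q r) (h : (DL q r).Adj u v) :
    (DL q r).Adj (shiftFun s u) (shiftFun s v) := by
  rcases h with ⟨h1, h2⟩ | ⟨h1, h2⟩
  · left
    refine ⟨by show v.n + s = u.n + s + 1; omega, fun x hx => ?_⟩
    have hx' : x ≠ u.n + s := hx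
    exact h2 (x - s) (by omega)
  · right
    refine ⟨by show u.n + s = v.n + s + 1; omega, fun x hx => ?_⟩
    have hx' : x ≠ v.n + s := hx
    exact h2 (x - s) (by omega)

theorem shift_shift (s : ℤ) (u : Vtx q r) : shiftFun (-s) (shiftFun s u) = u := by
  ext x
  · show u.n + s + -s = u.n
    ring
  · show u.w (x - -s - s) = u.w x
    congr 1
    ring

theorem shift_shift' (s : ℤ) (u : Vtx q r) : shiftFun s (shiftFun (-s) u) = u := by
  have := shift_shift (-s) u
  rwa [neg_neg] at this

/-- The shift as an automorphism. -/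
def shiftIso (s : ℤ) : DL q r ≃g DL q r where
  toFun := shiftFun s
  invFun := shiftFun (-s)
  left_inv := shift_shift s
  right_inv := shift_shift' s
  map_rel_iff' := by
    intro u v
    constructor
    · intro h
      have := shift_adj (-s) _ _ h
      rwa [Equiv.coe_fn_mk, shift_shift, shift_shift] at this
    · exact shift_adj s u v

theorem swap_lt {m a b : ℕ} (ha : a < m) (hb : b < m) {y : ℕ} (hy : y < m) :
    Equiv.swap a b y < m := by
  rw [Equiv.swap_apply_def]
  split_ifs <;> assumption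

/-- Permuting digits. -/
def flipFun (hq : 0 < q) (hr : 0 < r) (c : Vtx q r) (hc : c.n = 0) (u : Vtx q r) : Vtx q r where
  n := u.n
  w := fun x => if (u.n ≤ x ↔ 0 ≤ x) then Equiv.swap 0 (c.w x) (u.w x) else u.w x
  fin := by
    refine (u.fin.union c.fin).subset ?_
    intro x hx
    simp only [Set.mem_union, Function.mem_support, ne_eq] at hx ⊢
    by_contra hcon
    push Not at hcon
    apply hx
    rw [hcon.1, hcon.2]
    simp
  bd := by
    intro x
    have h1 := u.bd x
    have h2 := c.bd x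
    rw [hc] at h2
    by_cases h3 : u.n ≤ x
    · rw [if_pos h3] at h1 ⊢
      by_cases h4 : 0 ≤ x
      · rw [if_pos h4] at h2
        rw [if_pos (by tauto)]
        exact swap_lt hq h2 h1
      · rw [if_neg (by tauto)]
        exact h1
    · rw [if_neg h3] at h1 ⊢
      by_cases h4 : 0 ≤ x
      · rw [if_neg (by tauto)]
        exact h1
      · rw [if_neg h4] at h2
        rw [if_pos (by tauto)]
        exact swap_lt hr h2 h1

theorem flip_flip (hq : 0 < q) (hr : 0 < r) (c : Vtx q r) (hc : c.n = 0) (u : Vtx q r) :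
    flipFun hq hr c hc (flipFun hq hr c hc u) = u := by
  ext x
  · rfl
  · show (if (u.n ≤ x ↔ 0 ≤ x) then Equiv.swap 0 (c.w x)
      (if (u.n ≤ x ↔ 0 ≤ x) then Equiv.swap 0 (c.w x) (u.w x) else u.w x)
      else (if (u.n ≤ x ↔ 0 ≤ x) then Equiv.swap 0 (c.w x) (u.w x) else u.w x)) = u.w x
    by_cases h : (u.n ≤ x ↔ 0 ≤ x)
    · rw [if_pos h, if_pos h, Equiv.swap_apply_self]
    · rw [if_neg h, if_neg h]

theorem flip_adj (hq : 0 < q) (hr : 0 < r) (c : Vtx q r) (hc : c.n = 0) (u v : Vtx q r)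
    (h : (DL q r).Adj u v) : (DL q r).Adj (flipFun hq hr c hc u) (flipFun hq hr c hc v) := by
  rcases h with ⟨h1, h2⟩ | ⟨h1, h2⟩
  · left
    refine ⟨h1, fun x hx => ?_⟩
    have hx' : x ≠ u.n := hx
    show (if (u.n ≤ x ↔ 0 ≤ x) then Equiv.swap 0 (c.w x) (u.w x) else u.w x) =
      (if (v.n ≤ x ↔ 0 ≤ x) then Equiv.swap 0 (c.w x) (v.w x) else v.w x)
    have h3 : u.n ≤ x ↔ v.n ≤ x := by omega
    rw [h2 x hx']
    simp only [h3]
  · right
    refine ⟨h1, fun x hx => ?_⟩
    have hx' : x ≠ v.n := hx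
    show (if (u.n ≤ x ↔ 0 ≤ x) then Equiv.swap 0 (c.w x) (u.w x) else u.w x) =
      (if (v.n ≤ x ↔ 0 ≤ x) then Equiv.swap 0 (c.w x) (v.w x) else v.w x)
    have h3 : u.n ≤ x ↔ v.n ≤ x := by omega
    rw [h2 x hx']
    simp only [h3]

/-- Permuting digits, as an automorphism. -/
def flipIso (hq : 0 < q) (hr : 0 < r) (c : Vtx q r) (hc : c.n = 0) : DL q r ≃g DL q r where
  toFun := flipFun hq hr c hc
  invFun := flipFun hq hr c hc
  left_inv := flip_flip hq hr c hc
  right_inv := flip_flip hq hr c hc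
  map_rel_iff' := by
    intro u v
    constructor
    · intro h
      have := flip_adj hq hr c hc _ _ h
      rwa [Equiv.coe_fn_mk, flip_flip, flip_flip] at this
    · exact flip_adj hq hr c hc u v

theorem exists_iso_base (hq : 0 < q) (hr : 0 < r) (u : Vtx q r) :
    ∃ φ : DL q r ≃g DL q r, φ (base hq hr 0) = u := by
  have hc : (shiftFun (-u.n) u).n = 0 := by show u.n + -u.n = 0; ring
  refine ⟨(flipIso hq hr (shiftFun (-u.n) u) hc).trans (shiftIso u.n), ?_⟩
  show shiftFun u.n (flipFun hq hr (shiftFun (-u.n) u) hc (base hq hr 0)) = u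
  have : flipFun hq hr (shiftFun (-u.n) u) hc (base hq hr 0) = shiftFun (-u.n) u := by
    ext x
    · exact hc.symm
    · show (if ((0 : ℤ) ≤ x ↔ 0 ≤ x) then Equiv.swap 0 ((shiftFun (-u.n) u).w x) 0 else 0) =
        (shiftFun (-u.n) u).w x
      rw [if_pos Iff.rfl, Equiv.swap_apply_left]
  rw [this, shift_shift']

theorem transitive (hq : 0 < q) (hr : 0 < r) (u v : Vtx q r) : ∃ φ : DL q r ≃g DL q r, φ u = v := by
  obtain ⟨φ, hφ⟩ := exists_iso_base hq hr u
  obtain ⟨ψ, hψ⟩ := exists_iso_base hq hr v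
  refine ⟨φ.symm.trans ψ, ?_⟩
  show ψ (φ.symm u) = v
  rw [← hφ, RelIso.symm_apply_apply, hψ]

/-- The upper neighbours. -/
def upN (u : Vtx q r) (d : Fin r) : Vtx q r :=
  mk' (u.n + 1) u.n (u.n + 1) u (fun _ => d) (by
    intro x
    have hx := u.bd x
    by_cases h1 : u.n ≤ x ∧ x < u.n + 1
    · rw [if_pos h1, if_neg (by omega)]
      exact d.2
    · rw [if_neg h1]
      by_cases h2 : u.n ≤ x
      · rw [if_pos h2] at hx
        rwa [if_pos (by omega)]
      · rw [if_neg h2] at hx
        rwa [if_neg (by omega)])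

/-- The lower neighbours. -/
def dnN (u : Vtx q r) (d : Fin q) : Vtx q r :=
  mk' (u.n - 1) (u.n - 1) u.n u (fun _ => d) (by
    intro x
    have hx := u.bd x
    by_cases h1 : u.n - 1 ≤ x ∧ x < u.n
    · rw [if_pos h1, if_pos (by omega)]
      exact d.2
    · rw [if_neg h1]
      by_cases h2 : u.n ≤ x
      · rw [if_pos h2] at hx
        rwa [if_pos (by omega)]
      · rw [if_neg h2] at hx
        rwa [if_neg (by omega)])

theorem upN_n (u : Vtx q r) (d : Fin r) : (upN u d).n = u.n + 1 := rfl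

theorem upN_w (u : Vtx q r) (d : Fin r) (x : ℤ) :
    (upN u d).w x = if u.n ≤ x ∧ x < u.n + 1 then (d : ℕ) else u.w x := rfl

theorem dnN_n (u : Vtx q r) (d : Fin q) : (dnN u d).n = u.n - 1 := rfl

theorem dnN_w (u : Vtx q r) (d : Fin q) (x : ℤ) :
    (dnN u d).w x = if u.n - 1 ≤ x ∧ x < u.n then (d : ℕ) else u.w x := rfl

theorem upN_injective (u : Vtx q r) : Function.Injective (upN u) := by
  intro d e h
  have h1 := congrArg (fun v => Vtx.w v u.n) h
  simp only [upN_w] at h1
  rw [if_pos (by omega), if_pos (by omega)] at h1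
  exact Fin.ext h1

theorem dnN_injective (u : Vtx q r) : Function.Injective (dnN u) := by
  intro d e h
  have h1 := congrArg (fun v => Vtx.w v (u.n - 1)) h
  simp only [dnN_w] at h1
  rw [if_pos (by omega), if_pos (by omega)] at h1
  exact Fin.ext h1

theorem mem_range_upN (u v : Vtx q r) :
    v ∈ Set.range (upN u) ↔ (v.n = u.n + 1 ∧ ∀ p, p ≠ u.n → u.w p = v.w p) := by
  constructor
  · rintro ⟨d, rfl⟩
    refine ⟨rfl, fun p hp => ?_⟩
    rw [upN_w, if_neg (by omega)]
  · rintro ⟨h1, h2⟩
    have hb := v.bd u.n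
    rw [if_neg (by omega)] at hb
    refine ⟨⟨v.w u.n, hb⟩, ?_⟩
    ext x
    · exact h1.symm
    · rw [upN_w]
      split_ifs with h
      · have : x = u.n := by omega
        rw [this]
      · exact h2 x (by omega)

theorem mem_range_dnN (u v : Vtx q r) :
    v ∈ Set.range (dnN u) ↔ (u.n = v.n + 1 ∧ ∀ p, p ≠ v.n → u.w p = v.w p) := by
  constructor
  · rintro ⟨d, rfl⟩
    refine ⟨by rw [dnN_n]; ring, fun p hp => ?_⟩
    rw [dnN_n] at hp
    rw [dnN_w, if_neg (by omega)]
  · rintro ⟨h1, h2⟩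
    have hb := v.bd v.n
    rw [if_pos (le_refl _)] at hb
    refine ⟨⟨v.w v.n, hb⟩, ?_⟩
    ext x
    · rw [dnN_n]; omega
    · rw [dnN_w]
      split_ifs with h
      · have : x = v.n := by omega
        rw [this]
      · exact h2 x (by omega)

theorem neighborSet_eq (u : Vtx q r) :
    (DL q r).neighborSet u = Set.range (upN u) ∪ Set.range (dnN u) := by
  ext v
  rw [SimpleGraph.mem_neighborSet, Set.mem_union, mem_range_upN, mem_range_dnN, DL_adj]

theorem neighborSet_finite (u : Vtx q r) : ((DL q r).neighborSet u).Finite := by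
  rw [neighborSet_eq]
  exact (Set.finite_range _).union (Set.finite_range _)

theorem neighborSet_ncard (u : Vtx q r) : ((DL q r).neighborSet u).ncard = q + r := by
  rw [neighborSet_eq, Set.ncard_union_eq]
  · rw [← Set.image_univ, Set.ncard_image_of_injective _ (upN_injective u), ← Set.image_univ,
      Set.ncard_image_of_injective _ (dnN_injective u), Set.ncard_univ, Set.ncard_univ,
      Nat.card_fin, Nat.card_fin, add_comm]
  · rw [Set.disjoint_left]
    rintro v ⟨d, rfl⟩ ⟨e, he⟩
    have := congrArg Vtx.n he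
    rw [upN_n, dnN_n] at this
    omega

theorem infinite (hq : 0 < q) (hr : 0 < r) : Infinite (Vtx q r) := by
  refine Infinite.of_injective (fun a : ℤ => base (q := q) (r := r) hq hr a) ?_
  intro a b h
  exact congrArg Vtx.n h

open Classical in
/-- The isoperimetric inequality. -/
theorem boundary_ge (A : Finset (Vtx q r)) :
    r * A.card ≤ {p : Vtx q r × Vtx q r | p.1 ∈ A ∧ p.2 ∉ A ∧ (DL q r).Adj p.1 p.2}.ncard +
      q * A.card := by
  set B := {p : Vtx q r × Vtx q r | p.1 ∈ A ∧ p.2 ∉ A ∧ (DL q r).Adj p.1 p.2} with hB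
  have hBfin : B.Finite := by
    refine (Set.Finite.biUnion (A.finite_toSet)
      (fun u _ => ((Set.finite_singleton u).prod (neighborSet_finite u)))).subset ?_
    rintro ⟨u, v⟩ ⟨h1, h2, h3⟩
    simp only [Set.mem_iUnion]
    exact ⟨u, h1, rfl, h3⟩
  set U : Finset (Vtx q r × Vtx q r) :=
    (A ×ˢ (Finset.univ : Finset (Fin r))).image (fun p => (p.1, upN p.1 p.2)) with hU
  have hUcard : U.card = r * A.card := by
    rw [hU, Finset.card_image_of_injOn, Finset.card_product, Finset.card_univ, Fintype.card_fin,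
      mul_comm]
    rintro ⟨a, d⟩ _ ⟨b, e⟩ _ h
    simp only [Prod.mk.injEq] at h
    obtain ⟨rfl, h2⟩ := h
    rw [upN_injective a h2]
  have h1 : (U.filter (fun p => p.2 ∈ A)).card ≤ q * A.card := by
    have : U.filter (fun p => p.2 ∈ A) ⊆
        (A ×ˢ (Finset.univ : Finset (Fin q))).image (fun p => (dnN p.1 p.2, p.1)) := by
      intro p hp
      rw [Finset.mem_filter, hU, Finset.mem_image] at hp
      obtain ⟨⟨⟨a, d⟩, h3, rfl⟩, h4⟩ := hp
      rw [Finset.mem_product] at h3
      have h5 : upN a d ∈ Set.range (upN a) := ⟨d, rfl⟩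
      rw [mem_range_upN] at h5
      have h6 : a ∈ Set.range (dnN (upN a d)) := by
        rw [mem_range_dnN]
        exact ⟨h5.1, fun p hp => (h5.2 p hp).symm⟩
      obtain ⟨e, he⟩ := h6
      rw [Finset.mem_image]
      refine ⟨(upN a d, e), ?_, ?_⟩
      · rw [Finset.mem_product]
        exact ⟨h4, Finset.mem_univ _⟩
      · simp only [Prod.mk.injEq]
        exact ⟨he, trivial⟩
    refine (Finset.card_le_card this).trans (Finset.card_image_le.trans ?_)
    rw [Finset.card_product, Finset.card_univ, Fintype.card_fin, mul_comm]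
  have h2 : (U.filter (fun p => p.2 ∉ A)).card ≤ B.ncard := by
    rw [← Set.ncard_coe_finset]
    refine Set.ncard_le_ncard ?_ hBfin
    intro p hp
    rw [Finset.mem_coe, Finset.mem_filter, hU, Finset.mem_image] at hp
    obtain ⟨⟨⟨a, d⟩, h3, rfl⟩, h4⟩ := hp
    rw [Finset.mem_product] at h3
    refine ⟨h3.1, h4, ?_⟩
    have h5 : upN a d ∈ Set.range (upN a) := ⟨d, rfl⟩
    rw [mem_range_upN] at h5
    exact Or.inl h5
  have h3 := Finset.card_filter_add_card_filter_not (s := U) (fun p => p.2 ∈ A)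
  omega

theorem one_le_cheeger (hq : 0 < q) : 1 ≤ cheeger (DL q (q + 1)) := by
  have hr : 0 < q + 1 := Nat.succ_pos q
  refine le_csInf ?_ ?_
  · exact ⟨_, {base hq hr 0}, Finset.singleton_nonempty _, rfl⟩
  · rintro x ⟨A, hA, rfl⟩
    have h := boundary_ge (q := q) (r := q + 1) A
    have hpos : (0 : ℝ) < A.card := by exact_mod_cast hA.card_pos
    rw [one_le_div hpos]
    have : A.card ≤ {p : Vtx q (q + 1) × Vtx q (q + 1) | p.1 ∈ A ∧ p.2 ∉ A ∧
        (DL q (q + 1)).Adj p.1 p.2}.ncard := by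
      have e : (q + 1) * A.card = q * A.card + A.card := by ring
      omega
    exact_mod_cast this

end Pool.Agent.Work.MP_2d87f2_co
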